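import Pool.Agent.Run7.h1.GB.Main

/-!
# Kernels acting on trees with commensurable rigid stabilizers

Owner helper78.
-/

set_option autoImplicit false

namespace Pool.Agent.Run7.h78.RK

open Pool.Agent.Y110.FJ (ClosedE)
open Pool.Agent.R684.FP (FbC)
open Pool.Agent.N24.CM

/-- Serre's property FA: every action on a tree without inversions has a fixed vertex. -/
def FA (H : Type) [Group H] : Prop :=
  ∀ (V : Type) [MulAction H V] (T : SimpleGraph V), T.IsTree →
    (∀ (h : H) (u v : V), T.Adj u v → T.Adj (h • u) (h • v)) →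
    (∀ (h : H) (u v : V), T.Adj u v → h • u = v → h • v ≠ u) → ∃ v : V, ∀ h : H, h • v = v

variable {C : ∀ (G : Type) [Group G], Prop}

/-- a subgroup of `N` with a finite index subgroup with FA is commensurated by `G` -/
theorem commensurated {G : Type} [Group G] (N : Subgroup G) [hN : N.Normal]
    {V : Type} [MulAction N V] (T : SimpleGraph V) (hT : T.IsTree)
    (hact : ∀ (g : N) (x y : V), T.Adj x y → T.Adj (g • x) (g • y))
    (hinv : ∀ (g : N) (x y : V), T.Adj x y → g • x = y → g • y ≠ x)
    (hfin : ∀ x y : V, T.Adj x y →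
      (MulAction.stabilizer N x).relIndex (MulAction.stabilizer N y) ≠ 0) (o : V)
    (H₀ : Subgroup N)
    (hi : H₀.relIndex (MulAction.stabilizer N o) ≠ 0) (hFA : FA H₀) (g : G) :
    ((MulAction.stabilizer N o).map N.subtype).relIndex
      (((MulAction.stabilizer N o).map N.subtype).map (MulAut.conj g).toMonoidHom) ≠ 0 := by
  have hcom : ∀ u v : V, (MulAction.stabilizer N u).relIndex (MulAction.stabilizer N v) ≠ 0 :=
    fun u v => commensurable hT.1 (fun x => MulAction.stabilizer N x) hfin u v
  -- the twisted action of `H₀`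
  obtain ⟨c, hc⟩ : ∃ c : N ≃* N, ∀ x : N, ((c x : N) : G) = g * x * g⁻¹ :=
    ⟨MulAut.conjNormal g, fun x => MulAut.conjNormal_apply g x⟩
  let τ : H₀ →* N := c.toMonoidHom.comp H₀.subtype
  let _ : MulAction H₀ V := MulAction.compHom V τ
  have hsm : ∀ (h : H₀) (v : V), h • v = τ h • v := fun _ _ => rfl
  obtain ⟨w, hw⟩ := hFA V T hT (fun h u v => by rw [hsm, hsm]; exact hact _ u v)
    (fun h u v => by rw [hsm, hsm]; exact hinv _ u v)
  -- the conjugate of `H₀` is in the stabilizer of `w`
  have h1 : H₀.map c.toMonoidHom ≤ MulAction.stabilizer N w := by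
    rintro _ ⟨h, hh, rfl⟩
    exact hw ⟨h, hh⟩
  have h2 : (MulAction.stabilizer N o).relIndex (H₀.map c.toMonoidHom) ≠ 0 := by
    refine Subgroup.relIndex_ne_zero_trans (hcom o w) ?_
    rw [Subgroup.relIndex_eq_one.2 h1]
    exact one_ne_zero
  have h3 : (H₀.map c.toMonoidHom).relIndex ((MulAction.stabilizer N o).map c.toMonoidHom) ≠ 0 := by
    rw [Subgroup.relIndex_map_map_of_injective H₀ _ (f := c.toMonoidHom) c.injective]
    exact hi
  have h4 := Subgroup.relIndex_ne_zero_trans h2 h3
  have h5 : ((MulAction.stabilizer N o).map N.subtype).map (MulAut.conj g).toMonoidHom =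
      ((MulAction.stabilizer N o).map c.toMonoidHom).map N.subtype := by
    rw [Subgroup.map_map, Subgroup.map_map]
    congr 1
    ext x
    exact (hc x).symm
  rw [h5, Subgroup.relIndex_map_map_of_injective _ _ N.subtype_injective]
  exact h4

/-- **Rigid kernels.** -/
theorem main (hC : ClosedE C) (hM : ∀ (G : Type) [Group G], derivedSeries G 2 = ⊥ → C G)
    (hF : FbC C) {G : Type} [Group G] (N : Subgroup G) [hNn : N.Normal] (hQ : C (G ⧸ N))
    {V : Type} [MulAction N V] (T : SimpleGraph V) (hT : T.IsTree)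
    (hact : ∀ (g : N) (x y : V), T.Adj x y → T.Adj (g • x) (g • y))
    (hfin : ∀ x y : V, T.Adj x y →
      (MulAction.stabilizer N x).relIndex (MulAction.stabilizer N y) ≠ 0)
    (hfn : ∀ (x : V) (F : Subgroup (MulAction.stabilizer N x)), F.Normal → Finite F → F = ⊥)
    (o : V) (hcm : C (Comm ↥((MulAction.stabilizer N o).map N.subtype)))
    (hH : ∀ g : G, ((MulAction.stabilizer N o).map N.subtype).relIndex
      (((MulAction.stabilizer N o).map N.subtype).map (MulAut.conj g).toMonoidHom) ≠ 0) : C G := by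
  obtain ⟨H, hHe⟩ : ∃ H : Subgroup G, H = (MulAction.stabilizer N o).map N.subtype := ⟨_, rfl⟩
  rw [← hHe] at hcm hH
  have hdom : ∀ g : G, (dom H g).FiniteIndex := by
    intro g
    refine ⟨?_⟩
    have h1 : (dom H g) = (H.map (MulAut.conj g⁻¹).toMonoidHom).subgroupOf H := by
      ext x
      rw [mem_dom, Subgroup.mem_subgroupOf]
      constructor
      · intro h
        refine ⟨g * x * g⁻¹, h, ?_⟩
        show g⁻¹ * (g * x * g⁻¹) * g⁻¹⁻¹ = x
        group
      · rintro ⟨y, hy, hyx⟩
        have h2 : g⁻¹ * y * g⁻¹⁻¹ = x := hyx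
        rw [← h2]
        have h3 : g * (g⁻¹ * y * g⁻¹⁻¹) * g⁻¹ = y := by group
        rw [h3]
        exact hy
    rw [h1]
    have h4 := hH g
    have h5 : H.relIndex (H.map (MulAut.conj g).toMonoidHom) =
        (H.map (MulAut.conj g⁻¹).toMonoidHom).relIndex H := by
      have h6 := Subgroup.relIndex_map_map_of_injective (H.map (MulAut.conj g⁻¹).toMonoidHom) H
        (f := (MulAut.conj g).toMonoidHom) (MulAut.conj g).injective
      rw [← h6, Subgroup.map_map]
      congr 1
      ext x
      constructor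
      · intro hx
        refine ⟨x, hx, ?_⟩
        show g * (g⁻¹ * x * g⁻¹⁻¹) * g⁻¹ = x
        group
      · rintro ⟨y, hy, hyx⟩
        have h2 : g * (g⁻¹ * y * g⁻¹⁻¹) * g⁻¹ = x := hyx
        have h3 : y = x := by rw [← h2]; group
        rw [← h3]
        exact hy
    rw [h5] at h4
    exact h4
  refine Pool.Agent.Run7.h1.GB.kernels hC hM hF N hQ T hT hact hfin hfn o _ (toComm H hdom) hcm ?_
  intro g hg
  have h7 := of_toComm H hdom hg
  rw [hHe] at h7
  exact Pool.Agent.Run7.h1.GB.vcen_map _ g h7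

end Pool.Agent.Run7.h78.RK
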